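import Mathlib
import Pool.Agent.Lib.MP_d8b6c2_an.C.Main

/-! # The numbers for (F) -/

namespace Pool.Agent.MP_d8b6c2_an.C

open Finset

variable {N D M cap : ℕ → ℕ}

/-- `R = ∏ N l` (`i ≤ l < i + n`) -/
def RR (N : ℕ → ℕ) (i n : ℕ) : ℕ := ∏ l ∈ range n, N (i + l)

/-- `P = ∏ (N l + 1)` (`i ≤ l < i + n`) -/
def PP (N : ℕ → ℕ) (i n : ℕ) : ℕ := ∏ l ∈ range n, (N (i + l) + 1)

theorem nn_add (N : ℕ → ℕ) (i n : ℕ) : nn N (i + n) = nn N i * PP N i n := by
  unfold PP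
  induction n with
  | zero => simp
  | succ n ih => rw [← add_assoc, nn, ih, prod_range_succ]; ring

theorem Nums.N_pos (h : Nums N D M cap) (i : ℕ) : 0 < N i := by
  rw [h.hN]; positivity

theorem Nums.RR_pos (h : Nums N D M cap) (i n : ℕ) : 0 < RR N i n :=
  prod_pos fun l _ => h.N_pos _

theorem Nums.dvd_RR (h : Nums N D M cap) (i : ℕ) {n : ℕ} (hn : 1 ≤ n) : 400 ∣ RR N i n := by
  unfold RR
  refine dvd_trans ?_ (dvd_prod_of_mem _ (mem_range.2 (Nat.lt_of_lt_of_le Nat.zero_lt_one hn)))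
  rw [h.hN]
  exact dvd_mul_right _ _

/-- `P ≤ R exp(∑ 1/N)` in elementary form -/
theorem Nums.PP_le (h : Nums N D M cap) (i n : ℕ) :
    (PP N i n : ℝ) * (1 - (1 - (1 / 2 : ℝ) ^ n) / (200 * 2 ^ i)) ≤ RR N i n := by
  unfold PP RR
  induction n with
  | zero => simp
  | succ n ih =>
    rw [prod_range_succ, prod_range_succ, Nat.cast_mul, Nat.cast_mul]
    have hN : (N (i + n) : ℝ) = 400 * 2 ^ i * 2 ^ n := by
      rw [h.hN, pow_add]
      push_cast
      ring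
    set P : ℝ := ((∏ l ∈ range n, (N (i + l) + 1) : ℕ) : ℝ) with hP
    set R : ℝ := ((∏ l ∈ range n, N (i + l) : ℕ) : ℝ) with hR
    have hP0 : 0 ≤ P := Nat.cast_nonneg _
    have hN0 : (0 : ℝ) < N (i + n) := by rw [hN]; positivity
    have key : ((N (i + n) + 1 : ℕ) : ℝ) * (1 - (1 - (1 / 2 : ℝ) ^ (n + 1)) / (200 * 2 ^ i)) ≤
        N (i + n) * (1 - (1 - (1 / 2 : ℝ) ^ n) / (200 * 2 ^ i)) := by
      have h1 : (N (i + n) : ℝ) * ((1 - (1 / 2 : ℝ) ^ (n + 1)) / (200 * 2 ^ i) -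
          (1 - (1 / 2 : ℝ) ^ n) / (200 * 2 ^ i)) = 1 := by
        rw [hN]
        have h2 : ((2 : ℝ)) ^ n * (1 / 2 : ℝ) ^ n = 1 := by
          rw [← mul_pow]; norm_num
        have h3 : (2 : ℝ) ^ i ≠ 0 := by positivity
        field_simp
        rw [pow_succ]
        linear_combination 200 * h2
      have h4 : (0 : ℝ) ≤ (1 - (1 / 2 : ℝ) ^ (n + 1)) / (200 * 2 ^ i) := by
        have : (1 / 2 : ℝ) ^ (n + 1) ≤ 1 := pow_le_one₀ (by norm_num) (by norm_num)
        have h5 : (0 : ℝ) ≤ 1 - (1 / 2 : ℝ) ^ (n + 1) := by linarith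
        positivity
      push_cast
      nlinarith
    calc P * ((N (i + n) + 1 : ℕ) : ℝ) * (1 - (1 - (1 / 2 : ℝ) ^ (n + 1)) / (200 * 2 ^ i))
        = P * (((N (i + n) + 1 : ℕ) : ℝ) * (1 - (1 - (1 / 2 : ℝ) ^ (n + 1)) / (200 * 2 ^ i))) := by
          ring
      _ ≤ P * (N (i + n) * (1 - (1 - (1 / 2 : ℝ) ^ n) / (200 * 2 ^ i))) :=
          mul_le_mul_of_nonneg_left key hP0
      _ = (P * (1 - (1 - (1 / 2 : ℝ) ^ n) / (200 * 2 ^ i))) * N (i + n) := by ring
      _ ≤ R * N (i + n) := mul_le_mul_of_nonneg_right ih hN0.le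

theorem Nums.PP_le' (h : Nums N D M cap) (i n : ℕ) : (PP N i n : ℝ) ≤ 1.01 * RR N i n := by
  have h1 := h.PP_le i n
  have h2 : (1 - (1 / 2 : ℝ) ^ n) / (200 * 2 ^ i) ≤ 1 / 200 := by
    have h3 : (0 : ℝ) < (1 / 2 : ℝ) ^ n := by positivity
    have h4 : (1 : ℝ) ≤ 2 ^ i := one_le_pow₀ (by norm_num)
    rw [div_le_div_iff₀ (by positivity) (by norm_num)]
    nlinarith
  have h5 : (0 : ℝ) ≤ PP N i n := Nat.cast_nonneg _
  nlinarith

theorem RR_le_PP (N : ℕ → ℕ) (i n : ℕ) : RR N i n ≤ PP N i n :=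
  prod_le_prod' fun l _ => Nat.le_succ _

theorem Nums.nn_add_le (h : Nums N D M cap) (i n : ℕ) :
    (nn N (i + n) : ℝ) ≤ 1.01 * (nn N i * RR N i n) := by
  rw [nn_add, Nat.cast_mul]
  have h1 := h.PP_le' i n
  have h2 : (0 : ℝ) ≤ nn N i := Nat.cast_nonneg _
  nlinarith

theorem RR_mul_le (N : ℕ → ℕ) (i n : ℕ) : nn N i * RR N i n ≤ nn N (i + n) := by
  rw [nn_add]
  exact Nat.mul_le_mul_left _ (RR_le_PP N i n)

/-- the hypothesis `hM` of `no_fld` -/
theorem Nums.num_hM (h : Nums N D M cap) (i n : ℕ) (t : Fin n) :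
    ∑ u ∈ univ.filter (t < ·), D (i + n - 1 - u) < M (i + n - 1 - t) := by
  refine lt_of_le_of_lt ?_ (h.hM _)
  have hinj : Set.InjOn (fun u : Fin n => i + n - 1 - (u : ℕ))
      ((univ.filter (t < ·) : Finset (Fin n)) : Set (Fin n)) := by
    intro a _ b _ hab
    have ha := a.2
    have hb := b.2
    simp only at hab
    apply Fin.ext
    omega
  rw [← sum_image (f := D) (g := fun u : Fin n => i + n - 1 - (u : ℕ)) hinj]
  refine sum_le_sum_of_subset fun l hl => ?_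
  rw [mem_image] at hl
  obtain ⟨u, hu, rfl⟩ := hl
  rw [mem_filter] at hu
  have h1 : (t : ℕ) < u := hu.2
  have h2 := u.2
  rw [mem_range]
  omega

theorem prod_tail (N : ℕ → ℕ) (i n : ℕ) (t : Fin n) :
    ∏ s ∈ univ.filter (t ≤ ·), N (i + n - 1 - (s : Fin n)) = RR N i (n - t) := by
  unfold RR
  have hinj : Set.InjOn (fun u : Fin n => n - 1 - (u : ℕ))
      ((univ.filter (t ≤ ·) : Finset (Fin n)) : Set (Fin n)) := by
    intro a _ b _ hab
    have ha := a.2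
    have hb := b.2
    simp only at hab
    apply Fin.ext
    omega
  have himg : (univ.filter (t ≤ ·) : Finset (Fin n)).image (fun u : Fin n => n - 1 - (u : ℕ)) =
      range (n - t) := by
    ext l
    rw [mem_image, mem_range]
    have ht := t.2
    constructor
    · rintro ⟨u, hu, rfl⟩
      rw [mem_filter] at hu
      have h1 : (t : ℕ) ≤ u := hu.2
      have h2 := u.2
      omega
    · intro hl
      refine ⟨⟨n - 1 - l, by omega⟩, ?_, ?_⟩
      · rw [mem_filter]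
        refine ⟨mem_univ _, ?_⟩
        rw [Fin.le_def]
        show (t : ℕ) ≤ n - 1 - l
        omega
      · show n - 1 - (n - 1 - l) = l
        omega
  rw [← himg, prod_image hinj]
  refine prod_congr rfl fun u _ => ?_
  have h2 := u.2
  congr 1
  omega

/-- the hypothesis `ho` of `no_fld` -/
theorem Nums.num_ho (h : Nums N D M cap) {i : ℕ} (hi : 1 ≤ i) {n : ℕ} (hn : 1 ≤ n) :
    ∑ t : Fin n, ((2 * nn N (i + n) : ℕ) : ℝ) *
      (∏ s ∈ univ.filter (t ≤ ·), N (i + n - 1 - (s : Fin n)) : ℕ) / cap (i + n - 1 - t) ≤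
      ((RR N i n / 20 : ℕ) : ℝ) := by
  have hR0 : (0 : ℝ) < RR N i n := by exact_mod_cast h.RR_pos i n
  have hterm : ∀ t : Fin n, ((2 * nn N (i + n) : ℕ) : ℝ) *
      (∏ s ∈ univ.filter (t ≤ ·), N (i + n - 1 - (s : Fin n)) : ℕ) / cap (i + n - 1 - t) ≤
      0.0202 * RR N i n * (1 / 2) ^ i * (1 / 2) ^ (n - t : ℕ) := by
    intro t
    have ht := t.2
    rw [prod_tail]
    have hcap : cap (i + n - 1 - t) = 100 * 2 ^ (i + (n - t)) * nn N (i + (n - t)) := by
      rw [h.hcap]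
      have : i + n - 1 - (t : ℕ) + 1 = i + (n - t) := by omega
      rw [this]
    have hsplit : nn N (i + n) = nn N (i + (n - t)) * PP N (i + (n - t)) t := by
      rw [← nn_add]
      congr 1
      omega
    have hPsplit : PP N i n = PP N i (n - t) * PP N (i + (n - t)) t := by
      unfold PP
      have h1 : n = (n - t) + t := by omega
      conv_lhs => rw [h1]
      rw [prod_range_add]
      congr 1
      refine prod_congr rfl fun l _ => ?_
      rw [add_assoc]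
    have h2 : (RR N i (n - t) : ℝ) * PP N (i + (n - t)) t ≤ 1.01 * RR N i n := by
      have h3 := h.PP_le' i n
      rw [hPsplit] at h3
      push_cast at h3
      have h4 : (RR N i (n - t) : ℝ) ≤ PP N i (n - t) := by exact_mod_cast RR_le_PP N i _
      have h5 : (0 : ℝ) ≤ PP N (i + (n - t)) t := Nat.cast_nonneg _
      nlinarith
    have h6 : (0 : ℝ) < nn N (i + (n - t)) := by exact_mod_cast nn_pos N _
    rw [hcap, hsplit]
    push_cast
    have e1 : (0.0202 : ℝ) * RR N i n * (1 / 2) ^ i * (1 / 2) ^ (n - t : ℕ) =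
        2 * (1.01 * RR N i n) / (100 * 2 ^ (i + (n - t : ℕ))) := by
      rw [pow_add, one_div, inv_pow, inv_pow]
      field_simp
      norm_num
    have e2 : 2 * ((nn N (i + (n - t)) : ℝ) * PP N (i + (n - t)) t) * RR N i (n - t) /
        (100 * 2 ^ (i + (n - t : ℕ)) * nn N (i + (n - t))) =
        2 * ((RR N i (n - t) : ℝ) * PP N (i + (n - t)) t) / (100 * 2 ^ (i + (n - t : ℕ))) := by
      field_simp
    rw [e1, e2]
    gcongr
  refine (sum_le_sum fun t _ => hterm t).trans ?_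
  rw [← mul_sum]
  have hgeo : ∑ t : Fin n, (1 / 2 : ℝ) ^ (n - t : ℕ) ≤ 1 := by
    have h1 : ∀ k : ℕ, ∑ t : Fin k, (1 / 2 : ℝ) ^ (k - t : ℕ) = 1 - (1 / 2) ^ k := by
      intro k
      induction k with
      | zero => simp
      | succ k ih =>
        rw [Fin.sum_univ_succ]
        have h2 : ∀ t : Fin k, (1 / 2 : ℝ) ^ (k + 1 - (t.succ : Fin (k + 1)) : ℕ) =
            (1 / 2 : ℝ) ^ (k - t : ℕ) := by
          intro t
          congr 1
          simp
        rw [sum_congr rfl fun t _ => h2 t, ih]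
        simp only [Fin.val_zero, Nat.sub_zero, pow_succ]
        ring
    rw [h1]
    have : (0 : ℝ) < (1 / 2) ^ n := by positivity
    linarith
  have hi' : (1 / 2 : ℝ) ^ i ≤ 1 / 2 := by
    have : (1 / 2 : ℝ) ^ i ≤ (1 / 2) ^ 1 := pow_le_pow_of_le_one (by norm_num) (by norm_num) hi
    simpa using this
  have hdiv : ((RR N i n / 20 : ℕ) : ℝ) = RR N i n / 20 := by
    have : 20 ∣ RR N i n := dvd_trans (by norm_num) (h.dvd_RR i hn)
    rw [Nat.cast_div this (by norm_num)]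
    norm_num
  rw [hdiv]
  have h7 : (0 : ℝ) < (1 / 2) ^ i := by positivity
  have h8 : 0.0202 * (RR N i n : ℝ) * (1 / 2) ^ i * ∑ t : Fin n, (1 / 2 : ℝ) ^ (n - t : ℕ) ≤
      0.0202 * (RR N i n : ℝ) * (1 / 2) ^ i * 1 :=
    mul_le_mul_of_nonneg_left hgeo (by positivity)
  have h9 : 0.0202 * (RR N i n : ℝ) * (1 / 2) ^ i ≤ 0.0202 * (RR N i n : ℝ) * (1 / 2) :=
    mul_le_mul_of_nonneg_left hi' (by positivity)
  linarith

theorem Nums.cast_div (h : Nums N D M cap) (i : ℕ) {n : ℕ} (hn : 1 ≤ n) :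
    ((RR N i n / 20 : ℕ) : ℝ) = RR N i n / 20 ∧ ((RR N i n / 200 : ℕ) : ℝ) = RR N i n / 200 := by
  constructor
  · have : 20 ∣ RR N i n := dvd_trans (by norm_num) (h.dvd_RR i hn)
    rw [Nat.cast_div this (by norm_num)]
    norm_num
  · have : 200 ∣ RR N i n := dvd_trans (by norm_num) (h.dvd_RR i hn)
    rw [Nat.cast_div this (by norm_num)]
    norm_num

/-- the number behind `win` -/
theorem Nums.num_win (h : Nums N D M cap) (i : ℕ) {n : ℕ} (hn : 1 ≤ n) :
    2 * (nn N (i + n) : ℝ) * (1 / (1000 * nn N i)) ≤ ((RR N i n / 200 : ℕ) : ℝ) := by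
  rw [(h.cast_div i hn).2]
  have h1 := h.nn_add_le i n
  have h2 : (0 : ℝ) < nn N i := by exact_mod_cast nn_pos N i
  have h3 : (0 : ℝ) < RR N i n := by exact_mod_cast h.RR_pos i n
  rw [mul_one_div, div_le_div_iff₀ (by positivity) (by norm_num)]
  nlinarith [mul_pos h2 h3]

theorem Nums.nn_ge (h : Nums N D M cap) {i : ℕ} (hi : 1 ≤ i) : 401 ≤ nn N i := by
  obtain ⟨j, rfl⟩ : ∃ j, i = j + 1 := ⟨i - 1, by omega⟩
  rw [nn, h.hN]
  have h1 := nn_pos N j
  have h2 : 1 ≤ 2 ^ j := Nat.one_le_two_pow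
  nlinarith

/-- the number behind `hR` -/
theorem Nums.num_hR (h : Nums N D M cap) (i : ℕ) {n : ℕ} (hn : 1 ≤ n) {K x : ℕ}
    (hK : K ≤ RR N i n / 20 + RR N i n / 200)
    (hx : (x : ℝ) ≤ nn N i * (0.27 * RR N i n + K) + (nn N (i + n) - nn N i * RR N i n) +
      nn N (i + n) * (1 / (1000 * nn N i))) :
    x < (nn N i - nn N i / 10) * (RR N i n - RR N i n / 20) := by
  obtain ⟨c1, c2⟩ := h.cast_div i hn
  have h1 := h.nn_add_le i n
  have h2 : (0 : ℝ) < nn N i := by exact_mod_cast nn_pos N i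
  have h2' : (1 : ℝ) ≤ nn N i := by exact_mod_cast nn_pos N i
  have h3 : (0 : ℝ) < RR N i n := by exact_mod_cast h.RR_pos i n
  have hK' : (K : ℝ) ≤ RR N i n / 20 + RR N i n / 200 := by
    rw [← c1, ← c2]
    exact_mod_cast hK
  have h4 : ((RR N i n - RR N i n / 20 : ℕ) : ℝ) = RR N i n - RR N i n / 20 := by
    rw [Nat.cast_sub (Nat.div_le_self _ _), c1]
  have h5 : (0.9 : ℝ) * nn N i ≤ ((nn N i - nn N i / 10 : ℕ) : ℝ) := by
    rw [Nat.cast_sub (Nat.div_le_self _ _)]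
    have : ((nn N i / 10 : ℕ) : ℝ) ≤ (nn N i : ℝ) / 10 := Nat.cast_div_le
    linarith
  have h6 : (nn N (i + n) : ℝ) * (1 / (1000 * nn N i)) ≤ 0.00101 * RR N i n := by
    rw [mul_one_div, div_le_iff₀ (by positivity)]
    nlinarith [mul_pos h2 h3]
  have h7 : (x : ℝ) < ((nn N i - nn N i / 10 : ℕ) : ℝ) * ((RR N i n - RR N i n / 20 : ℕ) : ℝ) := by
    rw [h4]
    have h8 : (0.9 : ℝ) * nn N i * (RR N i n - RR N i n / 20) ≤
        ((nn N i - nn N i / 10 : ℕ) : ℝ) * (RR N i n - RR N i n / 20) :=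
      mul_le_mul_of_nonneg_right h5 (by linarith)
    have h9 : (nn N i : ℝ) * (0.27 * RR N i n + K) ≤
        nn N i * (0.27 * RR N i n + (RR N i n / 20 + RR N i n / 200)) :=
      mul_le_mul_of_nonneg_left (by linarith) h2.le
    have h10 : (RR N i n : ℝ) ≤ nn N i * RR N i n := by nlinarith
    nlinarith [mul_pos h2 h3]
  exact_mod_cast h7

/-- the number behind the frame -/
theorem Nums.num_r0 (h : Nums N D M cap) {i : ℕ} (hi : 1 ≤ i) {g : ℕ}
    (hg : (nn N i : ℝ) * (0.99 - 1 / 100) ≤ g) : nn N i - nn N i / 10 ≤ g := by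
  have h1 := h.nn_ge hi
  have h2 : (401 : ℝ) ≤ nn N i := by exact_mod_cast h1
  have h3 : ((nn N i - nn N i / 10 : ℕ) : ℝ) ≤ g := by
    rw [Nat.cast_sub (Nat.div_le_self _ _)]
    have h4 : (nn N i : ℝ) / 10 - 1 < ((nn N i / 10 : ℕ) : ℝ) := by
      have h5 : nn N i < 10 * (nn N i / 10) + 10 := by omega
      have h6 : (nn N i : ℝ) < 10 * ((nn N i / 10 : ℕ) : ℝ) + 10 := by exact_mod_cast h5
      linarith
    linarith
  exact_mod_cast h3

/-- the share of the genuine words is at least `0.99` -/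
theorem Nums.num_share (h : Nums N D M cap) (i : ℕ) : 0.99 * (nn N i : ℝ) ≤ RR N 0 i := by
  have h1 := h.PP_le' 0 i
  have h2 := nn_add N 0 i
  rw [zero_add] at h2
  have h3 : nn N 0 = 1 := rfl
  rw [h3, one_mul] at h2
  rw [h2]
  have h4 : (0 : ℝ) ≤ RR N 0 i := Nat.cast_nonneg _
  linarith

end Pool.Agent.MP_d8b6c2_an.C
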