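import Mathlib
import Pool.Agent.Lib.MP_d8b6c2_an.F2.Num

/-! # Estimates for the means `HH` -/

namespace Pool.Agent.MP_d8b6c2_an.C

open Finset

variable {N D M cap : ℕ → ℕ} {pt : ℕ → XX}

/-- the part of the mean which comes from the genuine words of length `n` -/
noncomputable def SS (N : ℕ → ℕ) (pt : ℕ → XX) (F : XX → ℝ) (i : ℕ) : ℕ → XX → ℝ
  | 0, x => nn N i * mean N pt F i x
  | (n + 1), x => ∑ m ∈ range (N (i + n)), SS N pt F i n (sh m x)

theorem nn_mul_mean (F : XX → ℝ) (i : ℕ) (x : XX) :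
    (nn N (i + 1) : ℝ) * mean N pt F (i + 1) x =
      ∑ m ∈ range (N i), nn N i * mean N pt F i (sh m x) + nn N i * mean N pt F i (pt i) := by
  rw [mean, nn, Fin.sum_univ_castSucc]
  have h1 : ∀ m : Fin (N i), nxt N pt i m.castSucc x = sh m x := by
    intro m
    simp [nxt]
  have h2 : nxt N pt i (Fin.last (N i)) x = pt i := by
    simp [nxt]
  rw [h2, sum_congr rfl fun m _ => by rw [h1 m], ← Finset.mul_sum,
    ← Fin.sum_univ_eq_sum_range (fun m => mean N pt F i (sh m x))]
  push_cast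
  have h3 : (N i : ℝ) + 1 ≠ 0 := by positivity
  field_simp

theorem mean_nonneg {F : XX → ℝ} (hF : ∀ x, 0 ≤ F x) (i : ℕ) (x : XX) :
    0 ≤ mean N pt F i x := by
  induction i generalizing x with
  | zero => exact hF x
  | succ i ih =>
    rw [mean]
    exact mul_nonneg (by positivity) (sum_nonneg fun m _ => ih _)

theorem mean_le_one {F : XX → ℝ} (hF : ∀ x, F x ≤ 1) (i : ℕ) (x : XX) :
    mean N pt F i x ≤ 1 := by
  induction i generalizing x with
  | zero => exact hF x
  | succ i ih =>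
    rw [mean]
    have h1 : ∑ m : Fin (N i + 1), mean N pt F i (nxt N pt i m x) ≤
        ∑ m : Fin (N i + 1), (1 : ℝ) := sum_le_sum fun m _ => ih _
    have h2 : ∑ m : Fin (N i + 1), (1 : ℝ) = (N i : ℝ) + 1 := by simp
    rw [h2] at h1
    have h3 : (0 : ℝ) < (N i : ℝ) + 1 := by positivity
    rw [inv_mul_le_iff₀ h3, mul_one]
    exact h1

theorem mean_le_SS {F : XX → ℝ} (hF1 : ∀ x, F x ≤ 1) (i n : ℕ) (x : XX) :
    (nn N (i + n) : ℝ) * mean N pt F (i + n) x ≤
      SS N pt F i n x + (nn N (i + n) - nn N i * RR N i n) := by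
  induction n generalizing x with
  | zero =>
    have : RR N i 0 = 1 := by simp [RR]
    rw [this]
    simp [SS]
  | succ n ih =>
    rw [← add_assoc, nn_mul_mean, SS]
    have h1 : ∑ m ∈ range (N (i + n)), (nn N (i + n) : ℝ) * mean N pt F (i + n) (sh m x) ≤
        ∑ m ∈ range (N (i + n)), (SS N pt F i n (sh m x) + (nn N (i + n) - nn N i * RR N i n)) :=
      sum_le_sum fun m _ => ih _
    rw [sum_add_distrib, sum_const, card_range, nsmul_eq_mul] at h1
    have h2 := mean_le_one (N := N) (pt := pt) hF1 (i + n) (pt (i + n))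
    have h3 : (0 : ℝ) ≤ nn N (i + n) := Nat.cast_nonneg _
    have h4 : (nn N (i + n) : ℝ) * mean N pt F (i + n) (pt (i + n)) ≤ nn N (i + n) := by
      nlinarith
    have h5 : (RR N i (n + 1) : ℝ) = RR N i n * N (i + n) := by
      unfold RR
      rw [prod_range_succ]
      push_cast
      rfl
    have h6 : (nn N (i + n + 1) : ℝ) = (N (i + n) + 1) * nn N (i + n) := by
      rw [nn]
      push_cast
      rfl
    rw [h5, h6]
    linarith

theorem SS_le_mean {F : XX → ℝ} (hF0 : ∀ x, 0 ≤ F x) (i n : ℕ) (x : XX) :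
    SS N pt F i n x ≤ (nn N (i + n) : ℝ) * mean N pt F (i + n) x := by
  induction n generalizing x with
  | zero => exact le_rfl
  | succ n ih =>
    rw [← add_assoc, nn_mul_mean, SS]
    have h1 : ∑ m ∈ range (N (i + n)), SS N pt F i n (sh m x) ≤
        ∑ m ∈ range (N (i + n)), (nn N (i + n) : ℝ) * mean N pt F (i + n) (sh m x) :=
      sum_le_sum fun m _ => ih _
    have h2 := mean_nonneg (N := N) (pt := pt) hF0 (i + n) (pt (i + n))
    have h3 : (0 : ℝ) ≤ nn N (i + n) := Nat.cast_nonneg _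
    nlinarith [mul_nonneg h3 h2]

theorem hF_nonneg (x : XX) : 0 ≤ hF x := by
  unfold hF
  have := (x []).1.2.2
  linarith

theorem hF_le_one (x : XX) : hF x ≤ 1 := by
  unfold hF
  have := (x []).1.2.1
  linarith

theorem HH_nonneg (i : ℕ) (x : XX) : 0 ≤ HH N pt i x := mean_nonneg hF_nonneg i x

theorem HH_le_one (i : ℕ) (x : XX) : HH N pt i x ≤ 1 := mean_le_one hF_le_one i x

/-- a self-similar tree -/
theorem SS_zero_const {F : XX → ℝ} {x : XX} (hx : ∀ m, sh m x = x) (n : ℕ) :
    SS N pt F 0 n x = RR N 0 n * F x := by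
  induction n with
  | zero => simp [SS, RR, nn, mean]
  | succ n ih =>
    rw [SS, sum_congr rfl fun m _ => by rw [hx m, ih], sum_const, card_range, nsmul_eq_mul]
    unfold RR
    rw [prod_range_succ]
    push_cast
    ring

/-- lower bound at a self-similar tree with coordinate `0` -/
theorem Nums.HH_zero (h : Nums N D M cap) (i : ℕ) {x : XX} (hx : ∀ m, sh m x = x)
    (h0 : ((x []).1 : ℝ) = 0) : 0.99 ≤ HH N pt i x := by
  have h1 := SS_le_mean (N := N) (pt := pt) hF_nonneg 0 i x
  rw [SS_zero_const hx, zero_add] at h1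
  have h2 := h.num_share i
  have h3 : hF x = 1 := by
    unfold hF
    rw [h0]
    ring
  rw [h3, mul_one] at h1
  have h4 : (0 : ℝ) < nn N i := by exact_mod_cast nn_pos N i
  have h5 : 0.99 * (nn N i : ℝ) ≤ nn N i * mean N pt hF i x := h2.trans h1
  have h6 : 0.99 ≤ mean N pt hF i x := by
    by_contra hc
    push Not at hc
    nlinarith
  exact h6

/-- upper bound at a self-similar tree with coordinate `1` -/
theorem Nums.HH_one (h : Nums N D M cap) (i : ℕ) {x : XX} (hx : ∀ m, sh m x = x)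
    (h0 : ((x []).1 : ℝ) = 1) : HH N pt i x ≤ 0.26 := by
  have h1 := mean_le_SS (N := N) (pt := pt) hF_le_one 0 i x
  rw [SS_zero_const hx, zero_add] at h1
  have h2 := h.num_share i
  have h3 : hF x = 1 / 4 := by
    unfold hF
    rw [h0]
    norm_num
  have h0' : nn N 0 = 1 := rfl
  rw [h3, h0', Nat.cast_one, one_mul] at h1
  have h4 : (0 : ℝ) < nn N i := by exact_mod_cast nn_pos N i
  have h6 : mean N pt hF i x ≤ 0.26 := by
    by_contra hc
    push Not at hc
    have : (nn N i : ℝ) * 0.26 < nn N i * mean N pt hF i x := mul_lt_mul_of_pos_left hc h4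
    nlinarith
  exact h6

end Pool.Agent.MP_d8b6c2_an.C
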