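import Mathlib
import Pool.Agent.Lib.MP_d8b6c2_an.F2.Mean

/-! # Words -/

namespace Pool.Agent.MP_d8b6c2_an.C

open Finset

variable {N D M cap : ℕ → ℕ} {pt : ℕ → XX} {i : ℕ}

/-- the first `n` letters of an index -/
def word : (n : ℕ) → Ix N (i + n) → List ℕ
  | 0, _ => []
  | (n + 1), p => ((Ix.hd (i := i + n) p : Fin (N (i + n) + 1)) : ℕ) :: word n (Ix.tl (i := i + n) p)

/-- what remains -/
def rest : (n : ℕ) → Ix N (i + n) → Ix N i
  | 0, p => p
  | (n + 1), p => rest n (Ix.tl (i := i + n) p)

/-- the point of the base which is seen at stage `i` -/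
noncomputable def pnt (pt : ℕ → XX) : (n : ℕ) → Ix N (i + n) → XX → XX
  | 0, _, x => x
  | (n + 1), p, x =>
    pnt pt n (Ix.tl (i := i + n) p) (nxt N pt (i + n) (Ix.hd (i := i + n) p) x)

theorem length_word (n : ℕ) (p : Ix N (i + n)) : (word n p).length = n := by
  induction n with
  | zero => rfl
  | succ n ih =>
    rw [word, List.length_cons, ih]

/-- the blocks of the iterated connecting map -/
theorem phin_apply {K : Type} [Fintype K] [DecidableEq K] (n : ℕ) (b : EqA N D K i) (x : XX)
    (κ κ' : K) (p q : Ix N (i + n)) :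
    (phin N D pt K i n b).1 x (κ, p) (κ', q) =
      if word n p = word n q then b.1 (pnt pt n p x) (κ, rest n p) (κ', rest n q) else 0 := by
  induction n generalizing x with
  | zero =>
    simp only [word, rest, pnt, if_true]
    rfl
  | succ n ih =>
    have h : (phin N D pt K i (n + 1) b).1 x (κ, p) (κ', q) =
        phiF N pt (phin N D pt K i n b).1 x (κ, p) (κ', q) := rfl
    rw [h, phiF_apply]
    simp only [word, rest, pnt, List.cons.injEq]
    by_cases h1 : Ix.hd (i := i + n) p = Ix.hd (i := i + n) q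
    · rw [if_pos h1, ← h1, ih]
      simp only [h1, true_and]
    · rw [if_neg h1, if_neg]
      intro h2
      exact h1 (Fin.ext h2.1)

/-- genuine words -/
def Wset (N : ℕ → ℕ) (i : ℕ) : ℕ → Finset (List ℕ)
  | 0 => {[]}
  | (n + 1) => (range (N (i + n)) ×ˢ Wset N i n).image fun y => y.1 :: y.2

theorem mem_Wset_succ {n : ℕ} {w : List ℕ} :
    w ∈ Wset N i (n + 1) ↔ ∃ a v, w = a :: v ∧ a < N (i + n) ∧ v ∈ Wset N i n := by
  rw [Wset, mem_image]
  constructor
  · rintro ⟨⟨a, v⟩, h, rfl⟩
    rw [mem_product, mem_range] at h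
    exact ⟨a, v, rfl, h.1, h.2⟩
  · rintro ⟨a, v, rfl, h1, h2⟩
    exact ⟨(a, v), by rw [mem_product, mem_range]; exact ⟨h1, h2⟩, rfl⟩

theorem sum_Wset_succ {A : Type*} [AddCommMonoid A] (n : ℕ) (F : List ℕ → A) :
    ∑ w ∈ Wset N i (n + 1), F w = ∑ a ∈ range (N (i + n)), ∑ v ∈ Wset N i n, F (a :: v) := by
  rw [Wset, sum_image, sum_product]
  rintro ⟨a, v⟩ _ ⟨a', v'⟩ _ h
  simp only [List.cons.injEq] at h
  exact Prod.ext h.1 h.2

theorem length_of_mem_Wset {n : ℕ} {w : List ℕ} (h : w ∈ Wset N i n) : w.length = n := by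
  induction n generalizing w with
  | zero =>
    rw [Wset, mem_singleton] at h
    rw [h]
    rfl
  | succ n ih =>
    obtain ⟨a, v, rfl, _, h2⟩ := mem_Wset_succ.1 h
    rw [List.length_cons, ih h2]

theorem mem_Wset_iff {n : ℕ} {w : List ℕ} :
    w ∈ Wset N i n ↔ w.length = n ∧ ∀ t, t < n → w.getD t 0 < N (i + n - 1 - t) := by
  induction n generalizing w with
  | zero =>
    rw [Wset, mem_singleton, List.length_eq_zero_iff]
    simp
  | succ n ih =>
    rw [mem_Wset_succ]
    constructor
    · rintro ⟨a, v, rfl, h1, h2⟩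
      obtain ⟨h3, h4⟩ := ih.1 h2
      refine ⟨by rw [List.length_cons, h3], fun t ht => ?_⟩
      rcases t with _ | t
      · simpa using h1
      · have := h4 t (by omega)
        rw [List.getD_cons_succ]
        have e : i + (n + 1) - 1 - (t + 1) = i + n - 1 - t := by omega
        rw [e]
        exact this
    · rintro ⟨h1, h2⟩
      rcases w with _ | ⟨a, v⟩
      · simp at h1
      · refine ⟨a, v, rfl, ?_, ih.2 ⟨by simpa using h1, fun t ht => ?_⟩⟩
        · have := h2 0 (by omega)
          simpa using this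
        · have := h2 (t + 1) (by omega)
          rw [List.getD_cons_succ] at this
          have e : i + (n + 1) - 1 - (t + 1) = i + n - 1 - t := by omega
          rw [e] at this
          exact this

/-- subtree -/
def sub (w : List ℕ) (x : XX) : XX := fun v => x (w ++ v)

theorem sub_cons (a : ℕ) (w : List ℕ) (x : XX) : sub (a :: w) x = sub w (sh a x) := rfl

theorem SS_eq (F : XX → ℝ) (n : ℕ) (x : XX) :
    SS N pt F i n x = ∑ w ∈ Wset N i n, nn N i * mean N pt F i (sub w x) := by
  induction n generalizing x with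
  | zero =>
    rw [Wset, sum_singleton]
    rfl
  | succ n ih =>
    rw [SS, sum_Wset_succ]
    refine sum_congr rfl fun a _ => ?_
    rw [ih]
    rfl

theorem pnt_of_mem {n : ℕ} {p : Ix N (i + n)} (h : word n p ∈ Wset N i n) (x : XX) :
    pnt pt n p x = sub (word n p) x := by
  induction n generalizing x with
  | zero => rfl
  | succ n ih =>
    obtain ⟨a, v, e, h1, h2⟩ := mem_Wset_succ.1 h
    rw [word, List.cons.injEq] at e
    rw [pnt, word, sub_cons]
    rw [← e.2] at h2
    rw [← e.1] at h1
    rw [ih h2]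
    congr 1
    unfold nxt
    rw [if_pos h1]

theorem sum_word {A : Type*} [AddCommMonoid A] {n : ℕ} {w : List ℕ} (h : w ∈ Wset N i n)
    (F : Ix N i → A) :
    ∑ p : Ix N (i + n), (if word n p = w then F (rest n p) else 0) = ∑ r, F r := by
  induction n generalizing w with
  | zero =>
    rw [Wset, mem_singleton] at h
    subst h
    simp only [word, rest, if_true]
    rfl
  | succ n ih =>
    obtain ⟨a, v, rfl, h1, h2⟩ := mem_Wset_succ.1 h
    have h3 := Ix.sum_succ (i := i + n) (fun p : Ix N (i + n + 1) =>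
      if word (n + 1) (p : Ix N (i + (n + 1))) = a :: v then F (rest (n + 1) p) else 0)
    refine h3.trans ?_
    rw [sum_eq_single (⟨a, by omega⟩ : Fin (N (i + n) + 1))]
    · rw [← ih h2]
      refine sum_congr rfl fun r _ => ?_
      simp only [word, rest, Ix.hd_cons, Ix.tl_cons, List.cons.injEq, true_and]
    · intro m _ hm
      refine sum_eq_zero fun r _ => ?_
      rw [if_neg]
      intro h4
      simp only [word, Ix.hd_cons, List.cons.injEq] at h4
      exact hm (Fin.ext h4.1)
    · intro h4
      exact absurd (mem_univ _) h4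

/-- the exponent of the character for a group element `c ^ q` -/
def wq (N D : ℕ → ℕ) : (j : ℕ) → Ix N j → (List ℕ → ℕ → ℕ) → ℕ
  | 0, _, _ => 0
  | (j + 1), p, q =>
    if (p.hd : ℕ) < N j then
      (∑ s ∈ range (D j), q [] s) * (p.hd : ℕ) + wq N D j p.tl fun v => q ((p.hd : ℕ) :: v)
    else 0

theorem chi_eq (j : ℕ) (p : Ix N j) (q : List ℕ → ℕ → ℕ) (c : Circle) :
    chi N D j p (fun v s => c ^ q v s) = c ^ wq N D j p q := by
  induction j generalizing q with
  | zero => simp [chi, wq]
  | succ j ih =>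
    rw [chi, wq]
    by_cases h : (p.hd : ℕ) < N j
    · rw [if_pos h, if_pos h, prod_pow_eq_pow_sum, ← pow_mul, pow_add]
      congr 1
      exact ih p.tl _
    · rw [if_neg h, if_neg h, pow_zero]

theorem wq_zero (j : ℕ) (p : Ix N j) (q : List ℕ → ℕ → ℕ) (h : ∀ v s, q v s = 0) :
    wq N D j p q = 0 := by
  induction j generalizing q with
  | zero => rfl
  | succ j ih =>
    rw [wq]
    by_cases h' : (p.hd : ℕ) < N j
    · rw [if_pos h', ih p.tl _ (fun v s => h _ _)]
      simp [h]
    · rw [if_neg h']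

theorem wq_word {n : ℕ} {p : Ix N (i + n)} (h : word n p ∈ Wset N i n)
    (q : List ℕ → ℕ → ℕ) :
    wq N D (i + n) p q =
      ∑ t ∈ range n, (∑ s ∈ range (D (i + n - 1 - t)), q ((word n p).take t) s) *
        (word n p).getD t 0 + wq N D i (rest n p) (fun v => q (word n p ++ v)) := by
  induction n generalizing q with
  | zero =>
    simp only [range_zero, sum_empty, zero_add, word, rest, List.nil_append]
    rfl
  | succ n ih =>
    obtain ⟨a, v, e, h1, h2⟩ := mem_Wset_succ.1 h
    rw [word, List.cons.injEq] at e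
    rw [← e.2] at h2
    rw [← e.1] at h1
    have h3 : wq N D (i + (n + 1)) p q =
        if ((Ix.hd (i := i + n) p : Fin (N (i + n) + 1)) : ℕ) < N (i + n) then
          (∑ s ∈ range (D (i + n)), q [] s) * ((Ix.hd (i := i + n) p : Fin (N (i + n) + 1)) : ℕ) +
            wq N D (i + n) (Ix.tl (i := i + n) p)
              fun v => q (((Ix.hd (i := i + n) p : Fin (N (i + n) + 1)) : ℕ) :: v)
        else 0 := rfl
    rw [h3, if_pos h1, ih h2, sum_range_succ']
    have e0 : i + (n + 1) - 1 - 0 = i + n := by omega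
    rw [e0]
    simp only [word, rest, List.take_zero, List.getD_cons_zero, List.take_succ_cons,
      List.getD_cons_succ, List.cons_append]
    have e1 : ∀ t, i + (n + 1) - 1 - (t + 1) = i + n - 1 - t := fun t => by omega
    simp only [e1]
    ring

end Pool.Agent.MP_d8b6c2_an.C
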