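import Mathlib
import Pool.Agent.Lib.MP_d8b6c2_an.F2.Wd
import Pool.Agent.Lib.MP_d8b6c2_an.Comb1a

/-! # The family of points `GX` -/

namespace Pool.Agent.MP_d8b6c2_an.C

open Finset

variable {N D M cap : ℕ → ℕ} {pt : ℕ → XX} {i n : ℕ}

/-- the numbers of children (minus one) -/
def mm (N : ℕ → ℕ) (i n : ℕ) : Fin n → ℕ := fun t => N (i + n - 1 - t) - 1

/-- the numbers of spheres -/
def dd (D : ℕ → ℕ) (i n : ℕ) : Fin n → ℕ := fun t => D (i + n - 1 - t)

/-- a path as a list -/
def toL (p : Pth (mm N i n)) : List ℕ := List.ofFn fun t => (p t : ℕ)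

/-- a list as a path -/
def toP (N : ℕ → ℕ) (i n : ℕ) (w : List ℕ) : Pth (mm N i n) :=
  fun t => ⟨min (w.getD t 0) (mm N i n t), Nat.lt_succ_of_le (min_le_right _ _)⟩

theorem getD_toL (p : Pth (mm N i n)) (t : Fin n) : (toL p).getD t 0 = p t := by
  unfold toL
  rw [List.getD_eq_getElem _ _ (by simp)]
  simp

theorem length_toL (p : Pth (mm N i n)) : (toL p).length = n := by simp [toL]

theorem toL_mem (hN : ∀ i, 0 < N i) (p : Pth (mm N i n)) : toL p ∈ Wset N i n := by
  rw [mem_Wset_iff]
  refine ⟨length_toL p, fun t ht => ?_⟩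
  have h1 := getD_toL p ⟨t, ht⟩
  simp only at h1
  rw [h1]
  have h2 := (p ⟨t, ht⟩).2
  have h3 : mm N i n ⟨t, ht⟩ + 1 = N (i + n - 1 - t) := by
    unfold mm
    have := hN (i + n - 1 - t)
    simp only
    omega
  omega

theorem toP_toL (p : Pth (mm N i n)) : toP N i n (toL p) = p := by
  funext t
  apply Fin.ext
  show min ((toL p).getD t 0) (mm N i n t) = p t
  rw [getD_toL]
  have := (p t).2
  omega

theorem toL_injective : Function.Injective (toL (N := N) (i := i) (n := n)) := by
  intro p q h
  rw [← toP_toL p, ← toP_toL q, h]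

theorem toL_toP {w : List ℕ} (h : w ∈ Wset N i n) : toL (toP N i n w) = w := by
  obtain ⟨h1, h2⟩ := mem_Wset_iff.1 h
  apply List.ext_getElem
  · rw [length_toL, h1]
  · intro t ht ht'
    rw [← List.getD_eq_getElem _ 0 ht, ← List.getD_eq_getElem _ 0 ht']
    have ht2 : t < n := by rw [← h1]; exact ht'
    have h3 := getD_toL (toP N i n w) ⟨t, ht2⟩
    simp only at h3
    rw [h3]
    show min (w.getD t 0) (mm N i n ⟨t, ht2⟩) = w.getD t 0
    have h4 := h2 t ht2
    unfold mm
    simp only
    omega

theorem toP_append {w : List ℕ} (h : w.length = n) (v : List ℕ) :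
    toP N i n (w ++ v) = toP N i n w := by
  funext t
  apply Fin.ext
  show min ((w ++ v).getD t 0) (mm N i n t) = min (w.getD t 0) (mm N i n t)
  rw [List.getD_append _ _ _ _ (by rw [h]; exact t.2)]

theorem sum_toL {A : Type*} [AddCommMonoid A] (hN : ∀ i, 0 < N i) (F : List ℕ → A) :
    ∑ w ∈ Wset N i n, F w = ∑ p : Pth (mm N i n), F (toL p) := by
  symm
  refine sum_nbij toL (fun p _ => toL_mem hN p) (fun p _ q _ h => toL_injective h) ?_
    fun _ _ => rfl
  intro w hw
  exact ⟨toP N i n w, by simp, toL_toP hw⟩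

theorem card_Pth (hN : ∀ i, 0 < N i) : Fintype.card (Pth (mm N i n)) = RR N i n := by
  have h1 : ∀ n, (Wset N i n).card = RR N i n := by
    intro n
    rw [card_eq_sum_ones]
    induction n with
    | zero => simp [Wset, RR]
    | succ n ih =>
      rw [sum_Wset_succ, sum_congr rfl fun a _ => ih, sum_const, card_range, smul_eq_mul]
      unfold RR
      rw [prod_range_succ, mul_comm]
  rw [← h1 n, card_eq_sum_ones, sum_toL hN (fun _ => 1)]
  simp

/-- base point of the sphere -/
def z0 : S3 := ⟨![1, 0], by simp [Fin.sum_univ_two]⟩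

theorem pre_toP (t : ℕ) (v : List ℕ) :
    pre t (pre t (toP N i n v)) = pre t (toP N i n v) := by
  rw [pre_pre, min_self]

/-- the node of depth `|v| < n` -/
def nd (N : ℕ → ℕ) (i n : ℕ) (v : List ℕ) (h : v.length < n) :
    {v : Fin n × Pth (mm N i n) // pre v.1 v.2 = v.2} :=
  ⟨(⟨v.length, h⟩, pre v.length (toP N i n v)), pre_toP _ _⟩

/-- the point of the base given by the coordinates of a field -/
noncomputable def GX (x : Bs (mm N i n) (dd D i n)) : XX := fun v =>
  if h : v.length < n then
    (0, fun s => if hs : s < dd D i n ⟨v.length, h⟩ then x.2 ⟨nd N i n v h, ⟨s, hs⟩⟩ else z0)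
  else (unitInterval.symm (x.1 (toP N i n v)), fun _ => z0)

theorem continuous_GX : Continuous (GX (N := N) (D := D) (i := i) (n := n)) := by
  refine continuous_pi fun v => ?_
  unfold GX
  by_cases h : v.length < n
  · simp only [h, dif_pos]
    refine continuous_const.prodMk (continuous_pi fun s => ?_)
    by_cases hs : s < dd D i n ⟨v.length, h⟩
    · simp only [hs, dif_pos]
      exact (continuous_apply _).comp continuous_snd
    · simp only [hs, dif_neg, not_false_eq_true]
      exact continuous_const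
  · simp only [h, dif_neg, not_false_eq_true]
    refine (unitInterval.continuous_symm.comp ?_).prodMk continuous_const
    exact (continuous_apply _).comp continuous_fst

open Classical in
/-- exponent of the group element belonging to a rotation of the sphere `u` -/
noncomputable def qu (u : Sg (mm N i n) (dd D i n)) (v : List ℕ) (s : ℕ) : ℕ :=
  if v.length = (u.1.1.1 : ℕ) ∧ pre v.length (toP N i n v) = u.1.1.2 ∧ s = (u.2 : ℕ) then 1 else 0

/-- the group element belonging to a rotation of the sphere `u` -/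
noncomputable def gg (u : Sg (mm N i n) (dd D i n)) (c : Circle) : GG := fun v s => c ^ qu u v s

theorem rotS_one (z : S3) : rotS 1 z = z := by
  apply Subtype.ext
  funext j
  simp [rotS]

theorem nd_eq_iff {u : Sg (mm N i n) (dd D i n)} {v : List ℕ} (h : v.length < n) {s : ℕ}
    (hs : s < dd D i n ⟨v.length, h⟩) :
    (⟨nd N i n v h, ⟨s, hs⟩⟩ : Sg (mm N i n) (dd D i n)) = u ↔
      (v.length = (u.1.1.1 : ℕ) ∧ pre v.length (toP N i n v) = u.1.1.2 ∧ s = (u.2 : ℕ)) := by
  constructor
  · rintro rfl
    exact ⟨rfl, rfl, rfl⟩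
  · obtain ⟨⟨⟨t, q⟩, hq⟩, s'⟩ := u
    rintro ⟨h1, h2, h3⟩
    simp only at h1 h2 h3
    have ht : t = ⟨v.length, h⟩ := Fin.ext h1.symm
    subst ht
    subst h2
    have hs' : s' = ⟨s, hs⟩ := Fin.ext h3.symm
    subst hs'
    rfl

theorem GX_rot (u : Sg (mm N i n) (dd D i n)) (c : Circle) (x : Bs (mm N i n) (dd D i n)) :
    GX (rotB u c x) = act (gg u c) (GX x) := by
  classical
  funext v
  unfold act
  by_cases h : v.length < n
  · unfold GX
    simp only [h, dif_pos]
    refine Prod.ext rfl ?_
    funext s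
    simp only
    by_cases hs : s < dd D i n ⟨v.length, h⟩
    · simp only [hs, dif_pos]
      unfold rotB gg qu
      simp only
      by_cases he : (⟨nd N i n v h, ⟨s, hs⟩⟩ : Sg (mm N i n) (dd D i n)) = u
      · rw [if_pos ((nd_eq_iff h hs).1 he), he, Function.update_self, pow_one]
      · rw [if_neg fun h' => he ((nd_eq_iff h hs).2 h'), Function.update_of_ne he, pow_zero,
          rotS_one]
    · simp only [hs, dif_neg, not_false_eq_true]
      have h0 : qu u v s = 0 := by
        unfold qu
        rw [if_neg]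
        rintro ⟨h1, _, h3⟩
        apply hs
        rw [h3]
        have h4 := u.2.2
        have h5 : u.1.1.1 = ⟨v.length, h⟩ := Fin.ext h1.symm
        rw [← h5]
        exact h4
      unfold gg
      rw [h0, pow_zero, rotS_one]
  · unfold GX
    simp only [h, dif_neg, not_false_eq_true]
    refine Prod.ext rfl ?_
    funext s
    have h0 : qu u v s = 0 := by
      unfold qu
      rw [if_neg]
      rintro ⟨h1, _, _⟩
      have := u.1.1.1.2
      omega
    unfold gg
    simp only [h0, pow_zero, rotS_one]

/-- the weights -/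
noncomputable def wtF {k' : ℕ} (u : Sg (mm N i n) (dd D i n)) (α : Fin k' × Ix N (i + n)) : ℕ :=
  wq N D (i + n) α.2 (qu u)

theorem chi_gg (u : Sg (mm N i n) (dd D i n)) (c : Circle) (p : Ix N (i + n)) :
    chi N D (i + n) p (gg u c) = c ^ wq N D (i + n) p (qu u) := chi_eq _ _ _ _

/-- weights on a genuine block -/
theorem wq_toL (hN : ∀ i, 0 < N i) (u : Sg (mm N i n) (dd D i n)) {p : Ix N (i + n)}
    {w : Pth (mm N i n)} (h : word n p = toL w) : wq N D (i + n) p (qu u) = lw w u := by
  classical
  have hmem : word n p ∈ Wset N i n := by rw [h]; exact toL_mem hN w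
  rw [wq_word hmem, wq_zero, add_zero, h]
  · have hterm : ∀ t ∈ range n, t ≠ (u.1.1.1 : ℕ) →
        (∑ s ∈ range (D (i + n - 1 - t)), qu u ((toL w).take t) s) * (toL w).getD t 0 = 0 := by
      intro t ht hne
      rw [sum_eq_zero, zero_mul]
      intro s _
      unfold qu
      rw [if_neg]
      rintro ⟨h1, _, _⟩
      apply hne
      rw [← h1, List.length_take, length_toL]
      rw [mem_range] at ht
      omega
    have hu : (u.1.1.1 : ℕ) ∈ range n := mem_range.2 u.1.1.1.2
    rw [sum_eq_single_of_mem _ hu hterm]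
    have hlen : ((toL w).take (u.1.1.1 : ℕ)).length = (u.1.1.1 : ℕ) := by
      rw [List.length_take, length_toL]
      have := u.1.1.1.2
      omega
    have hpre : pre (u.1.1.1 : ℕ) (toP N i n ((toL w).take (u.1.1.1 : ℕ))) =
        pre (u.1.1.1 : ℕ) w := by
      funext s
      unfold pre
      by_cases hs : (s : ℕ) < (u.1.1.1 : ℕ)
      · rw [if_pos hs, if_pos hs]
        apply Fin.ext
        show min (((toL w).take (u.1.1.1 : ℕ)).getD s 0) (mm N i n s) = w s
        have h1 : ((toL w).take (u.1.1.1 : ℕ)).getD s 0 = (toL w).getD s 0 := by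
          rw [List.getD_eq_getElem?_getD, List.getD_eq_getElem?_getD, List.getElem?_take,
            if_pos hs]
        rw [h1, getD_toL]
        have := (w s).2
        omega
      · rw [if_neg hs, if_neg hs]
    rw [getD_toL]
    unfold lw
    by_cases hp : pre u.1.1.1 w = u.1.1.2
    · rw [if_pos hp]
      have h2 : ∑ s ∈ range (D (i + n - 1 - (u.1.1.1 : ℕ))),
          qu u ((toL w).take (u.1.1.1 : ℕ)) s = 1 := by
        have hs2 : (u.2 : ℕ) ∈ range (D (i + n - 1 - (u.1.1.1 : ℕ))) := mem_range.2 u.2.2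
        rw [sum_eq_single_of_mem _ hs2]
        · unfold qu
          rw [hlen, hpre, if_pos ⟨rfl, hp, rfl⟩]
        · intro s _ hne
          unfold qu
          rw [if_neg]
          rintro ⟨_, _, h3⟩
          exact hne h3
      rw [h2, one_mul]
    · rw [if_neg hp, sum_eq_zero, zero_mul]
      intro s _
      unfold qu
      rw [hlen, hpre, if_neg]
      rintro ⟨_, h3, _⟩
      exact hp h3
  · intro v s
    unfold qu
    rw [if_neg]
    rintro ⟨h1, _, _⟩
    rw [List.length_append, h, length_toL] at h1
    have := u.1.1.1.2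
    omega

/-- the tree which is seen at the leaf `p` -/
theorem sub_GX (x : Bs (mm N i n) (dd D i n)) (p : Pth (mm N i n)) :
    sub (toL p) (GX x) = fun _ => (unitInterval.symm (x.1 p), fun _ => z0) := by
  funext v
  unfold sub GX
  have h : ¬ (toL p ++ v).length < n := by
    rw [List.length_append, length_toL]
    omega
  simp only [h, dif_neg, not_false_eq_true]
  rw [toP_append (length_toL p), toP_toL]

theorem Nums.HH_GX (h : Nums N D M cap) (x : Bs (mm N i n) (dd D i n)) :
    (nn N (i + n) : ℝ) * HH N pt (i + n) (GX x) ≤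
      nn N i * (0.27 * RR N i n + ((univ.filter fun p : Pth (mm N i n) => (x.1 p : ℝ) ≠ 0).card : ℕ)) +
        (nn N (i + n) - nn N i * RR N i n) := by
  classical
  refine (mean_le_SS (N := N) (pt := pt) hF_le_one i n (GX x)).trans ?_
  refine add_le_add ?_ le_rfl
  rw [SS_eq, sum_toL h.N_pos, ← mul_sum]
  refine mul_le_mul_of_nonneg_left ?_ (Nat.cast_nonneg _)
  have h1 : ∀ p : Pth (mm N i n), mean N pt hF i (sub (toL p) (GX x)) ≤
      0.27 + if (x.1 p : ℝ) ≠ 0 then (1 : ℝ) else 0 := by
    intro p
    by_cases hp : (x.1 p : ℝ) = 0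
    · rw [if_neg (by simpa using hp), sub_GX]
      have := h.HH_one (pt := pt) i (x := fun _ => (unitInterval.symm (x.1 p), fun _ => z0))
        (fun m => rfl) (by simp [unitInterval.coe_symm_eq, hp])
      unfold HH at this
      linarith
    · rw [if_pos hp]
      have := mean_le_one (N := N) (pt := pt) hF_le_one i (sub (toL p) (GX x))
      linarith
  refine (sum_le_sum fun p _ => h1 p).trans ?_
  rw [sum_add_distrib, sum_const, card_univ, card_Pth h.N_pos, nsmul_eq_mul, sum_boole]
  linarith

end Pool.Agent.MP_d8b6c2_an.C
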