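import Mathlib
import Pool.Agent.Lib.MP_d8b6c2_an.F2.GG
import Pool.Agent.Lib.MP_d8b6c2_an.F.MatA

/-! # The blocks of the genuine words -/

namespace Pool.Agent.MP_d8b6c2_an.C

open Finset Matrix

variable {N D M cap : ℕ → ℕ} {pt : ℕ → XX} {i n k k' : ℕ}

/-- embedding of the block of the path `p` -/
noncomputable def embW (k' : ℕ) (p : Pth (mm N i n)) (v : Fin k × Ix N i → ℂ) :
    Fin k' × Ix N (i + n) → ℂ := fun a =>
  if h : (a.1 : ℕ) < k ∧ word n a.2 = toL p then v (⟨a.1, h.1⟩, rest n a.2) else 0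

theorem sum_fin_dite {A : Type*} [AddCommMonoid A] (hk : k ≤ k') (G : Fin k → A) :
    ∑ κ : Fin k', (if h : (κ : ℕ) < k then G ⟨κ, h⟩ else 0) = ∑ κ : Fin k, G κ := by
  classical
  symm
  rw [← sum_filter_add_sum_filter_not univ (fun κ : Fin k' => (κ : ℕ) < k)]
  have h2 : ∑ κ ∈ univ.filter (fun κ : Fin k' => ¬ (κ : ℕ) < k),
      (if h : (κ : ℕ) < k then G ⟨κ, h⟩ else 0) = 0 := by
    refine sum_eq_zero fun κ hκ => ?_
    rw [mem_filter] at hκ
    rw [dif_neg hκ.2]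
  rw [h2, add_zero]
  refine sum_bij (fun κ _ => (⟨κ, lt_of_lt_of_le κ.2 hk⟩ : Fin k')) ?_ ?_ ?_ ?_
  · intro κ _
    rw [mem_filter]
    exact ⟨mem_univ _, κ.2⟩
  · intro κ _ κ' _ h
    have := congrArg Fin.val h
    exact Fin.ext this
  · intro κ hκ
    rw [mem_filter] at hκ
    exact ⟨⟨κ, hκ.2⟩, mem_univ _, rfl⟩
  · intro κ _
    rw [dif_pos κ.2]

theorem sum_block {A : Type*} [AddCommMonoid A] (hk : k ≤ k') (hN : ∀ i, 0 < N i)
    (p : Pth (mm N i n)) (F : Fin k × Ix N i → A) :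
    ∑ a : Fin k' × Ix N (i + n),
      (if h : (a.1 : ℕ) < k ∧ word n a.2 = toL p then F (⟨a.1, h.1⟩, rest n a.2) else 0) =
      ∑ r, F r := by
  rw [Fintype.sum_prod_type, Fintype.sum_prod_type]
  rw [← sum_fin_dite hk fun κ => ∑ r : Ix N i, F (κ, r)]
  refine sum_congr rfl fun κ _ => ?_
  by_cases h : (κ : ℕ) < k
  · rw [dif_pos h, ← sum_word (toL_mem hN p) fun r => F (⟨κ, h⟩, r)]
    refine sum_congr rfl fun q _ => ?_
    by_cases h2 : word n q = toL p
    · rw [if_pos h2, dif_pos ⟨h, h2⟩]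
    · rw [if_neg h2, dif_neg fun h3 => h2 h3.2]
  · rw [dif_neg h]
    refine sum_eq_zero fun q _ => ?_
    rw [dif_neg fun h3 => h h3.1]

/-- inner products -/
theorem dot_emb (hk : k ≤ k') (hN : ∀ i, 0 < N i) (p p' : Pth (mm N i n))
    (v v' : Fin k × Ix N i → ℂ) :
    ∑ a, (starRingEnd ℂ) (embW k' p v a) * embW k' p' v' a =
      if p = p' then ∑ r, (starRingEnd ℂ) (v r) * v' r else 0 := by
  by_cases hp : p = p'
  · subst hp
    rw [if_pos rfl, ← sum_block hk hN p]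
    refine sum_congr rfl fun a _ => ?_
    unfold embW
    by_cases h : (a.1 : ℕ) < k ∧ word n a.2 = toL p
    · rw [dif_pos h, dif_pos h, dif_pos h]
    · rw [dif_neg h, dif_neg h, dif_neg h, mul_zero]
  · rw [if_neg hp]
    refine sum_eq_zero fun a _ => ?_
    unfold embW
    by_cases h : (a.1 : ℕ) < k ∧ word n a.2 = toL p
    · rw [dif_neg (c := (a.1 : ℕ) < k ∧ word n a.2 = toL p'), mul_zero]
      intro h'
      exact hp (toL_injective (h.2.symm.trans h'.2))
    · rw [dif_neg h, map_zero, zero_mul]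

theorem nsq_sum_emb (hk : k ≤ k') (hN : ∀ i, 0 < N i)
    (v : Pth (mm N i n) → Fin k × Ix N i → ℂ) :
    nsq (∑ p, embW k' p (v p)) = ∑ p, nsq (v p) := by
  have hd : ∀ {m : Type} [Fintype m] (w : m → ℂ), (nsq w : ℂ) = ∑ a, (starRingEnd ℂ) (w a) * w a := by
    intro m _ w
    rw [nsq_eq_dot]
    rfl
  have h : (nsq (∑ p, embW k' p (v p)) : ℂ) = ((∑ p, nsq (v p) : ℝ) : ℂ) := by
    rw [hd]
    have h1 : ∀ a, (starRingEnd ℂ) ((∑ p, embW k' p (v p)) a) * (∑ p, embW k' p (v p)) a =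
        ∑ p, ∑ p', (starRingEnd ℂ) (embW k' p (v p) a) * embW k' p' (v p') a := by
      intro a
      rw [Finset.sum_apply, map_sum, sum_mul]
      refine sum_congr rfl fun p _ => ?_
      rw [mul_sum]
    rw [sum_congr rfl fun a _ => h1 a, sum_comm, Complex.ofReal_sum]
    refine sum_congr rfl fun p _ => ?_
    rw [sum_comm, sum_congr rfl fun p' _ => dot_emb hk hN p p' (v p) (v p'), sum_ite_eq,
      if_pos (mem_univ _), hd]
  exact_mod_cast h

/-- the matrix acts blockwise -/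
theorem mulVec_emb (hk : k ≤ k') (hN : ∀ i, 0 < N i) (b : EqA N D (Fin k) i) (x : XX)
    (p : Pth (mm N i n)) (w : Fin k × Ix N i → ℂ) :
    ((pad hk (i + n) (phin N D pt (Fin k) i n b)).1 x).mulVec (embW k' p w) =
      embW k' p ((b.1 (sub (toL p) x)).mulVec w) := by
  funext a
  have h0 : ((pad hk (i + n) (phin N D pt (Fin k) i n b)).1 x).mulVec (embW k' p w) a =
      ∑ a', (padF ((phin N D pt (Fin k) i n b).1 x) :
        Matrix (Fin k' × Ix N (i + n)) (Fin k' × Ix N (i + n)) ℂ) a a' * embW k' p w a' := rfl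
  rw [h0]
  by_cases h : (a.1 : ℕ) < k ∧ word n a.2 = toL p
  · have h1 : embW k' p ((b.1 (sub (toL p) x)).mulVec w) a =
        ∑ r, (b.1 (sub (toL p) x)) (⟨a.1, h.1⟩, rest n a.2) r * w r := by
      unfold embW
      rw [dif_pos h]
      rfl
    rw [h1, ← sum_block hk hN p]
    refine sum_congr rfl fun a' _ => ?_
    by_cases h' : (a'.1 : ℕ) < k ∧ word n a'.2 = toL p
    · rw [dif_pos h']
      unfold embW
      have hq : pnt pt n a.2 x = sub (toL p) x := by
        rw [pnt_of_mem (by rw [h.2]; exact toL_mem hN p), h.2]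
      rw [dif_pos h', padF_apply, dif_pos ⟨h.1, h'.1⟩, phin_apply, if_pos (h.2.trans h'.2.symm),
        hq]
    · rw [dif_neg h']
      unfold embW
      rw [dif_neg h', mul_zero]
  · have h1 : embW k' p ((b.1 (sub (toL p) x)).mulVec w) a = 0 := by
      unfold embW
      rw [dif_neg h]
    rw [h1]
    refine sum_eq_zero fun a' _ => ?_
    by_cases h' : (a'.1 : ℕ) < k ∧ word n a'.2 = toL p
    · by_cases h2 : (a.1 : ℕ) < k
      · have h3 : word n a.2 ≠ word n a'.2 := by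
          intro h4
          exact h ⟨h2, h4.trans h'.2⟩
        rw [padF_apply, dif_pos ⟨h2, h'.1⟩, phin_apply, if_neg h3, zero_mul]
      · rw [padF_apply, dif_neg fun h3 => h2 h3.1, zero_mul]
    · unfold embW
      rw [dif_neg h', mul_zero]

/-- the frame -/
noncomputable def eF (k' : ℕ) {r0 : ℕ} (E : Matrix (Fin k × Ix N i) (Fin r0) ℂ)
    (p : Pth (mm N i n)) : Matrix (Fin k' × Ix N (i + n)) (Fin r0) ℂ :=
  Matrix.of fun a l => embW k' p (fun r => E r l) a

theorem eF_mulVec {r0 : ℕ} (E : Matrix (Fin k × Ix N i) (Fin r0) ℂ) (p : Pth (mm N i n))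
    (ξ : Fin r0 → ℂ) : (eF k' E p).mulVec ξ = embW k' p (E.mulVec ξ) := by
  funext a
  have h0 : (eF k' E p).mulVec ξ a = ∑ l, embW k' p (fun r => E r l) a * ξ l := rfl
  rw [h0]
  unfold embW
  by_cases h : (a.1 : ℕ) < k ∧ word n a.2 = toL p
  · rw [dif_pos h]
    refine sum_congr rfl fun l _ => ?_
    rw [dif_pos h]
  · rw [dif_neg h]
    refine sum_eq_zero fun l _ => ?_
    rw [dif_neg h, zero_mul]

theorem eF_mul (hk : k ≤ k') (hN : ∀ i, 0 < N i) {r0 : ℕ}
    {E : Matrix (Fin k × Ix N i) (Fin r0) ℂ} (hE : E.conjTranspose * E = 1)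
    (p p' : Pth (mm N i n)) :
    (eF k' E p).conjTranspose * eF k' E p' = if p = p' then 1 else 0 := by
  ext l l'
  have h0 : ((eF k' E p).conjTranspose * eF k' E p') l l' =
      ∑ a, (starRingEnd ℂ) (embW k' p (fun r => E r l) a) * embW k' p' (fun r => E r l') a := rfl
  rw [h0, dot_emb hk hN]
  by_cases hp : p = p'
  · rw [if_pos hp, if_pos hp, ← hE]
    rfl
  · rw [if_neg hp, if_neg hp]
    rfl

theorem eF_wt (hN : ∀ i, 0 < N i) {r0 : ℕ} (E : Matrix (Fin k × Ix N i) (Fin r0) ℂ)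
    (p : Pth (mm N i n)) (α : Fin k' × Ix N (i + n)) (l : Fin r0)
    (u : Sg (mm N i n) (dd D i n)) (h : eF k' E p α l ≠ 0) : wtF u α = lw p u := by
  have h1 : (α.1 : ℕ) < k ∧ word n α.2 = toL p := by
    by_contra h2
    apply h
    show embW k' p (fun r => E r l) α = 0
    unfold embW
    rw [dif_neg h2]
  exact wq_toL hN u h1.2

end Pool.Agent.MP_d8b6c2_an.C
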