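import Mathlib
import Pool.Agent.Lib.MP_d8b6c2_an.F2.Emb
import Pool.Agent.Lib.MP_d8b6c2_an.Bridge1

/-! # The contradiction -/

namespace Pool.Agent.MP_d8b6c2_an.C

open Finset Matrix
open scoped Matrix.Norms.L2Operator ComplexOrder

variable {N D M cap : ℕ → ℕ} {pt : ℕ → XX} {i n k k' : ℕ}

/-- the tree with all coordinates `0` -/
noncomputable def gam0 : XX := fun _ => (0, fun _ => z0)

theorem mm_add_one (hN : ∀ i, 0 < N i) (t : Fin n) : mm N i n t + 1 = N (i + n - 1 - t) := by
  unfold mm
  have := hN (i + n - 1 - t)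
  omega

theorem coe_circle_pow (c : Circle) (a : ℕ) : ((c ^ a : Circle) : ℂ) = (c : ℂ) ^ a := by
  simp

theorem contra_aux (h : Nums N D M cap) {i k : ℕ} (hi : 1 ≤ i) (b : EqA N D (Fin k) i) (e : ℝ)
    (he : 0 < e) (hb : GoodAt N D pt b e (1 / 100)) (n : ℕ) (hn : 1 ≤ n) {k' : ℕ} (hk : k ≤ k')
    (b' : EqA N D (Fin k') (i + n)) (e2 : ℝ) (he2 : 0 < e2) (he2' : e2 ≤ e / 16)
    (hb' : GoodAt N D pt b' e2 (1 / (1000 * nn N i)))
    (hclose : ∀ x, ‖b'.1 x - (pad hk (i + n) (phin N D pt (Fin k) i n b)).1 x‖ ≤ e / 16) :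
    False := by
  classical
  -- the frame
  have hB0 := hb.pos gam0
  have hr : nn N i - nn N i / 10 ≤ nGe e (b.1 gam0) := by
    refine h.num_r0 hi ?_
    refine le_trans ?_ (hb.lower gam0)
    have h1 := h.HH_zero (pt := pt) i (x := gam0) (fun m => rfl) rfl
    have h2 : (0 : ℝ) ≤ nn N i := Nat.cast_nonneg _
    exact mul_le_mul_of_nonneg_left (by linarith) h2
  obtain ⟨E, hE, hEf⟩ := exists_frame hB0.1 he hr
  have hnn : (0 : ℝ) < nn N i := by exact_mod_cast nn_pos N i
  have hη : (1 : ℝ) / (1000 * nn N i) ≤ 1 := by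
    rw [div_le_one (by positivity)]
    have : (1 : ℝ) ≤ nn N i := by exact_mod_cast nn_pos N i
    linarith
  let C : CField (mm N i n) (dd D i n) (Fin k' × Ix N (i + n)) (2 * nn N (i + n))
      (nn N i - nn N i / 10) (RR N i n / 200) (RR N i n / 20) (e2 / 8) (e2 / 2) :=
    { wt := fun u α => wtF u α
      e := fun p => eF k' E p
      b := fun x => b'.1 (GX x)
      δ_pos := by positivity
      δ_lt := by linarith
      e_orth := by
        intro p
        rw [eF_mul hk h.N_pos hE, if_pos rfl]
      e_orth' := by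
        intro p p' hp
        rw [eF_mul hk h.N_pos hE, if_neg hp]
      e_wt := by
        intro p α l u hne
        exact eF_wt h.N_pos E p α l u hne
      b_cont := b'.1.continuous.comp continuous_GX
      b_herm := fun x => (hb'.pos (GX x)).1
      b_eqv := by
        intro x u c α β
        show b'.1 (GX (rotB u c x)) α β = _
        rw [GX_rot, b'.2 (gg u c) (GX x) α β, chi_gg, chi_gg, coe_circle_pow, coe_circle_pow]
        rfl
      win := by
        intro x
        have h1 := nIcc_add_nGe (c1 := e2 / 8) (c2 := e2 / 2) (c3 := e2) (by linarith)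
          (by linarith) (hb'.pos (GX x)).1
        have h2 := hb'.lower (GX x)
        have h3 := hb'.upper (GX x)
        have h4 := h.num_win i hn
        have h5 : (nIcc (e2 / 8) (e2 / 2) (b'.1 (GX x)) : ℝ) + nGe e2 (b'.1 (GX x)) ≤
            nGe (e2 / 8) (b'.1 (GX x)) := by exact_mod_cast h1
        have h6 : (nIcc (e2 / 8) (e2 / 2) (b'.1 (GX x)) : ℝ) ≤ ((RR N i n / 200 : ℕ) : ℝ) := by
          nlinarith
        exact_mod_cast h6
      le := by
        intro x
        have h3 := hb'.upper (GX x)
        have h4 := HH_le_one (N := N) (pt := pt) (i + n) (GX x)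
        have h5 : (0 : ℝ) ≤ nn N (i + n) := Nat.cast_nonneg _
        have h6 : (nGe (e2 / 8) (b'.1 (GX x)) : ℝ) ≤ ((2 * nn N (i + n) : ℕ) : ℝ) := by
          push_cast
          nlinarith
        exact_mod_cast h6
      hR := by
        intro x hK
        rw [card_Pth h.N_pos]
        refine h.num_hR i hn hK ?_
        have h3 := hb'.upper (GX x)
        have h4 := h.HH_GX (pt := pt) x
        rw [mul_add] at h3
        linarith
      cert := by
        intro x ξ hξ
        choose w hw1 hw2 using fun p => hEf (ξ p)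
        have hu : ∑ p, (eF k' E p).mulVec (ξ p) = ∑ p, embW k' p (E.mulVec (ξ p)) :=
          sum_congr rfl fun p _ => eF_mulVec E p (ξ p)
        rw [hu]
        refine cert_of (B0 := (pad hk (i + n) (phin N D pt (Fin k) i n b)).1 (GX x))
          (hb'.pos (GX x)) he he2 he2' (hclose (GX x)) (w := ∑ p, embW k' p (w p)) ?_ ?_
        · rw [Matrix.mulVec_sum]
          refine sum_congr rfl fun p _ => ?_
          rw [mulVec_emb hk h.N_pos, ← hw1 p]
          by_cases hp : (x.1 p : ℝ) = 1
          · rw [sub_GX]
            have h1 : unitInterval.symm (x.1 p) = 0 := by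
              apply Subtype.ext
              simp [unitInterval.coe_symm_eq, hp]
            rw [h1]
            rfl
          · have h1 : ξ p = 0 := hξ p hp
            have h2 := hw2 p
            rw [h1, Matrix.mulVec_zero] at h2
            have h3 : nsq (0 : Fin k × Ix N i → ℂ) = 0 := by simp [nsq]
            rw [h3] at h2
            have h4 : nsq (w p) = 0 := by
              have h5 := nsq_nonneg' (w p)
              have h6 : 0 < e ^ 2 := by positivity
              nlinarith
            have h5 : w p = 0 := by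
              funext r
              unfold nsq at h4
              rw [sum_eq_zero_iff_of_nonneg fun _ _ => sq_nonneg _] at h4
              have := h4 r (mem_univ _)
              simpa using this
            rw [h5, Matrix.mulVec_zero, Matrix.mulVec_zero]
        · rw [nsq_sum_emb hk h.N_pos, nsq_sum_emb hk h.N_pos, mul_sum]
          exact sum_le_sum fun p _ => hw2 p }
  refine no_field (fun t : Fin n => M (i + n - 1 - t)) (fun t : Fin n => cap (i + n - 1 - t))
    ?_ ?_ ?_ ?_ C
  · intro t
    show D (i + n - 1 - t) = _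
    rw [h.hD, eexp, mm_add_one h.N_pos]
  · intro t
    exact h.num_hM i n t
  · intro t
    show 0 < cap (i + n - 1 - t)
    rw [h.hcap]
    have := nn_pos N (i + n - 1 - t + 1)
    positivity
  · have h1 := h.num_ho hi hn
    refine le_trans (le_of_eq ?_) h1
    refine sum_congr rfl fun t _ => ?_
    unfold nlv
    have h2 : ∏ s ∈ univ.filter (t ≤ ·), (mm N i n s + 1) =
        ∏ s ∈ univ.filter (t ≤ ·), N (i + n - 1 - (s : Fin n)) :=
      prod_congr rfl fun s _ => mm_add_one h.N_pos s
    rw [h2]

end Pool.Agent.MP_d8b6c2_an.C
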